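import Pool.Agent.H18.HX.Targets

/-! WPO: Wronskians on a hypersurface. -/

set_option autoImplicit false

open MvPolynomial
open Pool.Agent.H12.ZD (pmap v O Res DenseOrbit NoInv)
open Pool.Agent.H18.HIT Pool.Agent.H18.HX

namespace Pool.Agent.H58.HX

theorem wpo_fse_up {N : ℕ} {k : Type} [CommRing k] (q : Po N k) :
    finSuccEquiv k N (rename Fin.succ q) = Polynomial.C q := by
  induction q using MvPolynomial.induction_on with
  | C a => rw [rename_C, finSuccEquiv_apply, eval₂Hom_C]; rfl
  | add p q hp hq => rw [map_add, map_add, hp, hq, Polynomial.C_add]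
  | mul_X p i hp => rw [map_mul, map_mul, hp, rename_X, finSuccEquiv_X_succ, Polynomial.C_mul]

theorem wpo_fse_pd {N : ℕ} {k : Type} [CommRing k] (h : Po (N + 1) k) :
    finSuccEquiv k N (pderiv 0 h) = Polynomial.derivative (finSuccEquiv k N h) := by
  induction h using MvPolynomial.induction_on with
  | C a =>
    rw [pderiv_C, map_zero, finSuccEquiv_apply, eval₂Hom_C]
    simp
  | add p q hp hq => rw [map_add, map_add, hp, hq, map_add, map_add]
  | mul_X p i hp =>
    rw [pderiv_mul, map_add, map_mul, map_mul, hp, map_mul, Polynomial.derivative_mul]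
    refine Fin.cases ?_ (fun j => ?_) i
    · rw [finSuccEquiv_X_zero, pderiv_X_self, map_one, Polynomial.derivative_X]
    · rw [finSuccEquiv_X_succ, pderiv_X_of_ne (Fin.succ_ne_zero j), map_zero,
        Polynomial.derivative_C]

theorem wpo_ext_der {k A L : Type} [Field k] [CommRing A] [IsDomain A] [Algebra k A] [Field L]
    [Algebra A L] [Algebra k L] [IsScalarTower k A L] [IsFractionRing A L]
    (δ : Derivation k A L) : ∃ D : Derivation k L L, ∀ a, D (algebraMap A L a) = δ a := by
  have h1 : Algebra.FormallyEtale A L := Algebra.FormallyEtale.of_isLocalization (nonZeroDivisors A)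
  let e := KaehlerDifferential.tensorKaehlerEquivOfFormallyEtale k A L
  let f : TensorProduct A L (KaehlerDifferential k A) →ₗ[L] L :=
    LinearMap.liftBaseChange L δ.liftKaehlerDifferential
  refine ⟨(f.comp e.symm.toLinearMap).compDer (KaehlerDifferential.D k L), fun a => ?_⟩
  show f (e.symm (KaehlerDifferential.D k L (algebraMap A L a))) = δ a
  rw [KaehlerDifferential.tensorKaehlerEquivOfFormallyEtale_symm_D_algebraMap]
  simp [f]

theorem wpo_dd_self {N : ℕ} {k : Type} [CommRing k] (P : Po (N + 1) k) (i : Fin N) :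
    dd P i P = 0 := by
  unfold dd
  rw [Derivation.sub_apply, Derivation.smul_apply, Derivation.smul_apply, smul_eq_mul,
    smul_eq_mul]
  ring

theorem wpo_natDegree {N : ℕ} {k : Type} [Field k] {P : Po (N + 1) k} (hP : Irreducible P)
    (hM : Mny P) : 1 ≤ (finSuccEquiv k N P).natDegree := by
  have hM' : (finSuccEquiv k N P).Monic := hM
  by_contra h
  have h0 : (finSuccEquiv k N P).natDegree = 0 := by omega
  have h1 : finSuccEquiv k N P = 1 := hM'.natDegree_eq_zero.1 h0
  have h2 : P = 1 := (finSuccEquiv k N).injective (by rw [h1, map_one])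
  exact hP.not_isUnit (h2 ▸ isUnit_one)

theorem wpo_not_dvd {N : ℕ} {k : Type} [Field k] {P h : Po (N + 1) k}
    (h0 : finSuccEquiv k N h ≠ 0)
    (h1 : (finSuccEquiv k N h).natDegree < (finSuccEquiv k N P).natDegree) : ¬ P ∣ h := by
  intro hd
  have h2 : finSuccEquiv k N P ∣ finSuccEquiv k N h := map_dvd _ hd
  have h3 := Polynomial.natDegree_le_of_dvd h2 h0
  omega

theorem wpo_main (hWRO : T_WRO) (hCNS : T_CNS) (N : ℕ) (k : Type) [Field k] [CharZero k]
    [IsAlgClosed k] (P : Po (N + 1) k) (hP : Irreducible P) (hM : Mny P) (ι : Type) [Fintype ι]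
    [DecidableEq ι] (G : ι → Po (N + 1) k) (hG : ∀ a : ι → k, P ∣ ∑ b, C (a b) * G b → a = 0)
    (B : Type) [CommRing B] [IsDomain B] [Algebra k B] (mk : Po (N + 1) k →ₐ[k] B)
    (hmks : Function.Surjective mk) (hmk : ∀ h, mk h = 0 ↔ P ∣ h)
    (K : Type) [Field K] [Algebra k K] [Algebra B K] [IsScalarTower k B K] [IsFractionRing B K] :
    ∃ D : ι → List (Fin N), ¬ P ∣ (Matrix.of fun a b => dw P (D a) (G b)).det := by
  classical
  let Xi : Po (N + 1) k →ₐ[k] K := (IsScalarTower.toAlgHom k B K).comp mk
  have hinj : Function.Injective (algebraMap B K) := IsFractionRing.injective B K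
  have hXi : ∀ h, Xi h = 0 ↔ P ∣ h := by
    intro h
    show algebraMap B K (mk h) = 0 ↔ _
    rw [map_eq_zero_iff _ hinj, hmk]
  have hder : ∀ i : Fin N, ∃ D : Derivation k K K, ∀ h, D (Xi h) = Xi (dd P i h) := by
    intro i
    have hd : ∀ x, mk x = 0 → mk (dd P i x) = 0 := by
      intro x hx
      have hx' : P ∣ x := by
        rw [← hXi]
        show algebraMap B K (mk x) = 0
        rw [hx, map_zero]
      obtain ⟨y, rfl⟩ := hx'
      have h1 : mk P = 0 := (hmk P).2 dvd_rfl
      rw [Derivation.leibniz, wpo_dd_self, smul_zero, add_zero, smul_eq_mul, map_mul, h1,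
        zero_mul]
    let DB : Derivation k B B := Derivation.liftOfSurjective (f := mk) hmks (d := dd P i) hd
    have hDB : ∀ h, DB (mk h) = mk (dd P i h) := fun h =>
      Derivation.liftOfSurjective_apply (f := mk) hmks hd h
    obtain ⟨D, hD⟩ := wpo_ext_der (L := K)
      ((IsScalarTower.toAlgHom B B K).toLinearMap.compDer DB)
    exact ⟨D, fun h => (hD (mk h)).trans (congrArg (algebraMap B K) (hDB h))⟩
  choose δ hδ using hder
  -- the transcendence basis
  let x : Fin N → K := fun j => Xi (X j.succ)
  have hup : ∀ q : Po N k, aeval x q = Xi (rename Fin.succ q) := by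
    intro q
    have h1 : (aeval x : Po N k →ₐ[k] K) = Xi.comp (rename Fin.succ) := by
      refine MvPolynomial.algHom_ext fun j => ?_
      rw [aeval_X, AlgHom.comp_apply, rename_X]
    rw [h1]
    rfl
  have hind : AlgebraicIndependent k x := by
    rw [algebraicIndependent_iff]
    intro q hq
    rw [hup, hXi] at hq
    by_contra hq0
    refine wpo_not_dvd ?_ ?_ hq
    · rw [wpo_fse_up]
      exact Polynomial.C_ne_zero.2 hq0
    · rw [wpo_fse_up, Polynomial.natDegree_C]
      exact wpo_natDegree hP hM
  have htb : IsTranscendenceBasis k x := by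
    rw [hind.isTranscendenceBasis_iff_isAlgebraic]
    let A0 := Algebra.adjoin k (Set.range x)
    let xs : Fin N → A0 := fun j => ⟨x j, Algebra.subset_adjoin ⟨j, rfl⟩⟩
    let φ : Po N k →ₐ[k] A0 := aeval xs
    have hφ : ∀ q, ((φ q : A0) : K) = aeval x q := by
      intro q
      have h1 := MvPolynomial.comp_aeval_apply (f := xs) A0.val q
      exact h1
    let y : K := Xi (X 0)
    have hev : ∀ h, Polynomial.eval₂ ((algebraMap A0 K).comp (φ : Po N k →+* A0)) y
        (finSuccEquiv k N h) = Xi h := by
      intro h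
      induction h using MvPolynomial.induction_on with
      | C a =>
        rw [finSuccEquiv_apply, eval₂Hom_C, RingHom.comp_apply, Polynomial.eval₂_C]
        show ((φ (C a) : A0) : K) = _
        rw [hφ, aeval_C]
        exact (Xi.commutes a).symm
      | add p q hp hq => rw [map_add, Polynomial.eval₂_add, hp, hq, map_add]
      | mul_X p i hp =>
        rw [map_mul, Polynomial.eval₂_mul, hp, map_mul]
        congr 1
        refine Fin.cases ?_ (fun j => ?_) i
        · rw [finSuccEquiv_X_zero, Polynomial.eval₂_X]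
        · rw [finSuccEquiv_X_succ, Polynomial.eval₂_C]
          show ((φ (X j) : A0) : K) = _
          rw [hφ, aeval_X]
    have hall : ∀ h, IsAlgebraic A0 (Xi h) := by
      intro h
      induction h using MvPolynomial.induction_on with
      | C a =>
        have h1 : Xi (C a) = algebraMap A0 K (algebraMap k A0 a) := Xi.commutes a
        rw [h1]
        exact isAlgebraic_algebraMap _
      | add p q hp hq =>
        rw [map_add]
        exact hp.add hq
      | mul_X p i hp =>
        rw [map_mul]
        refine hp.mul ?_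
        refine Fin.cases ?_ (fun j => ?_) i
        · refine ⟨(finSuccEquiv k N P).map (φ : Po N k →+* A0), ?_, ?_⟩
          · exact (Polynomial.Monic.map (φ : Po N k →+* A0) hM).ne_zero
          · rw [Polynomial.aeval_def, Polynomial.eval₂_map]
            rw [hev P]
            exact (hXi P).2 dvd_rfl
        · exact isAlgebraic_algebraMap (xs j)
    refine ⟨fun z => ?_⟩
    obtain ⟨a, b, hb, rfl⟩ := IsFractionRing.div_surjective (A := B) z
    obtain ⟨a', rfl⟩ := hmks a
    obtain ⟨b', rfl⟩ := hmks b
    rw [div_eq_mul_inv]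
    exact (hall a').mul (hall b').inv
  have hu : Xi (pderiv 0 P) ≠ 0 := by
    rw [Ne, hXi]
    have hdeg := wpo_natDegree hP hM
    refine wpo_not_dvd ?_ ?_
    · rw [wpo_fse_pd]
      intro h0
      have := Polynomial.derivative_eq_zero.1 h0
      omega
    · rw [wpo_fse_pd]
      exact Polynomial.natDegree_derivative_lt (by omega)
  have hval : ∀ i j, δ i (x j) = if i = j then Xi (pderiv 0 P) else 0 := by
    intro i j
    show δ i (Xi (X j.succ)) = _
    rw [hδ]
    unfold dd
    rw [Derivation.sub_apply, Derivation.smul_apply, Derivation.smul_apply, smul_eq_mul,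
      smul_eq_mul, pderiv_X_of_ne (Fin.succ_ne_zero j), mul_zero, sub_zero]
    by_cases hij : i = j
    · subst hij
      rw [pderiv_X_self, mul_one, if_pos rfl]
    · rw [pderiv_X_of_ne (fun h => hij (Fin.succ_injective _ h).symm), mul_zero, map_zero,
        if_neg hij]
  obtain ⟨D, hD⟩ := hWRO K N (fun i => (δ i).restrictScalars ℤ) ι (fun b => Xi (G b)) (by
    intro lam hlam hsum
    have hc : ∀ b, ∃ c : k, lam b = algebraMap k K c := fun b =>
      hCNS k K N x δ _ htb hu hval (lam b) fun i => hlam i b
    choose a ha using hc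
    have h1 : Xi (∑ b, C (a b) * G b) = 0 := by
      rw [← hsum, map_sum]
      refine Finset.sum_congr rfl fun b _ => ?_
      rw [map_mul, ha b]
      congr 1
      exact Xi.commutes (a b)
    have h2 := hG a ((hXi _).1 h1)
    funext b
    rw [ha b, h2]
    simp)
  refine ⟨D, fun hdvd => hD ?_⟩
  have hw : ∀ (l : List (Fin N)) (h : Po (N + 1) k),
      l.foldr (fun i z => ((δ i).restrictScalars ℤ) z) (Xi h) = Xi (dw P l h) := by
    intro l h
    induction l with
    | nil => rfl
    | cons i l ih =>
      rw [List.foldr_cons, ih]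
      show δ i (Xi (dw P l h)) = _
      rw [hδ]
      rfl
  have hm : (Matrix.of fun a b => (D a).foldr (fun i z => ((δ i).restrictScalars ℤ) z)
      (Xi (G b))) = (Xi : Po (N + 1) k →+* K).mapMatrix
        (Matrix.of fun a b => dw P (D a) (G b)) := by
    ext a b
    exact hw (D a) (G b)
  rw [hm, ← RingHom.map_det]
  exact (hXi _).2 hdvd

theorem pf_WPO (hWRO : T_WRO) (hCNS : T_CNS) : T_WPO := by
  intro N k _ _ _ P hP hM ι _ _ G hG
  have hIp : (Ideal.span {P}).IsPrime := (Ideal.span_singleton_prime hP.ne_zero).2 hP.prime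
  refine wpo_main hWRO hCNS N k P hP hM ι G hG (Po (N + 1) k ⧸ Ideal.span {P})
    (Ideal.Quotient.mkₐ k (Ideal.span {P})) (Ideal.Quotient.mkₐ_surjective k _) (fun h => ?_)
    (FractionRing (Po (N + 1) k ⧸ Ideal.span {P}))
  show Ideal.Quotient.mk (Ideal.span {P}) h = 0 ↔ _
  rw [Ideal.Quotient.eq_zero_iff_mem, Ideal.mem_span_singleton]

end Pool.Agent.H58.HX
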