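import Pool.Agent.H18.HX.Targets

/-! CNS: the constants of the derivations. -/

set_option autoImplicit false

open MvPolynomial
open Pool.Agent.H12.ZD (pmap v O Res DenseOrbit NoInv)
open Pool.Agent.H18.HIT Pool.Agent.H18.HX

namespace Pool.Agent.H58.HX

theorem deriv_zero {k K : Type} [Field k] [CharZero k] [Field K] [Algebra k K] (s : Set K)
    [Algebra.IsAlgebraic (IntermediateField.adjoin k s) K] (D : Derivation k K K)
    (hD : ∀ x ∈ s, D x = 0) (a : K) : D a = 0 := by
  have hk : ∀ a ∈ IntermediateField.adjoin k s, D a = 0 := by
    intro a ha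
    induction ha using IntermediateField.adjoin_induction with
    | mem x hx => exact hD x hx
    | algebraMap c => exact D.map_algebraMap c
    | add x y _ _ hx hy => rw [map_add, hx, hy, add_zero]
    | inv x _ hx => rw [Derivation.leibniz_inv, hx, smul_zero]
    | mul x y _ _ hx hy => rw [Derivation.leibniz, hx, hy, smul_zero, smul_zero, add_zero]
  let D' : Derivation (IntermediateField.adjoin k s) K K := Derivation.mk'
    { toFun := D
      map_add' := fun x y => map_add D x y
      map_smul' := by
        intro c x
        rw [Algebra.smul_def, Derivation.leibniz]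
        have h1 : D (algebraMap (IntermediateField.adjoin k s) K c) = 0 := hk _ c.2
        rw [h1, smul_zero, add_zero]
        rfl }
    (by
      intro a b
      exact D.leibniz a b)
  have hD' : ∀ x, D' x = D x := fun x => rfl
  rw [← hD']
  have hint : IsIntegral (IntermediateField.adjoin k s) a :=
    (Algebra.IsAlgebraic.isAlgebraic a).isIntegral
  have h1 := Derivation.map_aeval D' (minpoly (IntermediateField.adjoin k s) a) a
  rw [minpoly.aeval, map_zero, smul_eq_mul] at h1
  have hsep : (minpoly (IntermediateField.adjoin k s) a).Separable :=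
    (minpoly.irreducible hint).separable
  exact (mul_eq_zero.1 h1.symm).resolve_left
    (hsep.aeval_derivative_ne_zero (minpoly.aeval _ _))

theorem pf_CNS : T_CNS := by
  intro k K _ _ _ _ _ N x δ u hx hu hδ φ hφ
  by_contra hcon
  have htr : Transcendental k φ := by
    intro halg
    apply hcon
    have hint : IsIntegral k φ := halg.isIntegral
    have hdeg := IsAlgClosed.degree_eq_one_of_irreducible k (minpoly.irreducible hint)
    obtain ⟨c, hc⟩ := minpoly.mem_range_of_degree_eq_one k φ hdeg
    exact ⟨c, hc.symm⟩
  have hs : AlgebraicIndepOn k id ({φ} : Set K) := by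
    have : AlgebraicIndependent k (fun y : ({φ} : Set K) => (y : K)) := by
      rw [algebraicIndependent_unique_type_iff]
      exact htr
    exact this
  have halg : Algebra.IsAlgebraic (Algebra.adjoin k (insert φ (Set.range x))) K := by
    have h0 := hx.isAlgebraic
    have hinj : Function.Injective (algebraMap k K) := (algebraMap k K).injective
    have : FaithfulSMul k K := (faithfulSMul_iff_algebraMap_injective k K).mpr hinj
    rw [← AlgebraicIndependent.matroid_spanning_iff] at h0 ⊢
    exact h0.superset (Set.subset_insert _ _) (Set.subset_univ _)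
  obtain ⟨s, hs1, hs2, hs3⟩ := exists_isTranscendenceBasis_between (R := k) ({φ} : Set K)
    (insert φ (Set.range x)) (by simp) hs
  have hex : ∃ i, x i ∉ s := by
    by_contra hall
    push Not at hall
    have hsub : Set.range x ⊆ s := by
      rintro _ ⟨i, rfl⟩
      exact hall i
    have heq := hx.2 s hs3.1 hsub
    have hφr : φ ∈ Set.range x := by
      rw [heq]
      exact hs1 rfl
    obtain ⟨i, hi⟩ := hφr
    have h1 := hφ i
    rw [← hi, hδ i i, if_pos rfl] at h1
    exact hu h1
  obtain ⟨i, hi⟩ := hex
  have hfield := hs3.isAlgebraic_field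
  rw [Subtype.range_coe_subtype, Set.ofPred_mem_eq] at hfield
  have h2 := deriv_zero s (δ i) (by
    intro y hy
    rcases hs2 hy with rfl | ⟨j, rfl⟩
    · exact hφ i
    · rw [hδ i j, if_neg]
      rintro rfl
      exact hi hy) (x i)
  rw [hδ i i, if_pos rfl] at h2
  exact hu h2

end Pool.Agent.H58.HX
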