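import Pool.Agent.H58.HX.LFX

/-! HNX: Hensel's lemma for the hypersurface. -/

set_option autoImplicit false

open MvPolynomial
open Pool.Agent.H12.ZD (pmap v O Res DenseOrbit NoInv)
open Pool.Agent.H18.HIT Pool.Agent.H18.HX

namespace Pool.Agent.H58.HX

theorem hnx_congr {R σ : Type} [CommRing R] (q : R) (a z : σ → R) (F : MvPolynomial σ R) :
    q ∣ eval (fun i => a i + q * z i) F - eval a F := by
  induction F using MvPolynomial.induction_on with
  | C c => simp
  | add F G hF hG =>
    have h := dvd_add hF hG
    rw [map_add, map_add]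
    have h1 : eval (fun i => a i + q * z i) F + eval (fun i => a i + q * z i) G -
        (eval a F + eval a G) = (eval (fun i => a i + q * z i) F - eval a F) +
          (eval (fun i => a i + q * z i) G - eval a G) := by ring
    rw [h1]
    exact h
  | mul_X F i hF =>
    rw [map_mul, map_mul, eval_X, eval_X]
    have h1 : eval (fun i => a i + q * z i) F * (a i + q * z i) - eval a F * a i =
        (eval (fun i => a i + q * z i) F - eval a F) * (a i + q * z i) +
          q * (z i * eval a F) := by ring
    rw [h1]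
    exact dvd_add (hF.mul_right _) (dvd_mul_right _ _)

theorem hnx_root {R : Type} [CommRing R] [IsLocalRing R] (q b : R) (s : Multiset R)
    (h1 : IsUnit ((Polynomial.derivative
      (s.map fun t => Polynomial.X - Polynomial.C t).prod).eval b))
    (h2 : q ∣ (s.map fun t => b - t).prod) : ∃ t ∈ s, q ∣ b - t := by
  induction s using Multiset.induction_on with
  | empty =>
    rw [Multiset.map_zero, Multiset.prod_zero, Polynomial.derivative_one,
      Polynomial.eval_zero] at h1
    exact absurd h1 not_isUnit_zero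
  | cons t s ih =>
    rw [Multiset.map_cons, Multiset.prod_cons] at h1 h2
    rw [Polynomial.derivative_mul, Polynomial.eval_add, Polynomial.eval_mul,
      Polynomial.eval_mul, eval_multiset] at h1
    simp only [Polynomial.derivative_sub, Polynomial.derivative_X, Polynomial.derivative_C,
      sub_zero, Polynomial.eval_one, one_mul, Polynomial.eval_sub, Polynomial.eval_X,
      Polynomial.eval_C] at h1
    rcases IsLocalRing.isUnit_or_isUnit_of_isUnit_add h1 with h | h
    · refine ⟨t, Multiset.mem_cons_self t s, ?_⟩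
      exact (h.dvd_mul_right).1 h2
    · obtain ⟨h3, h4⟩ := isUnit_of_mul_isUnit_left h, isUnit_of_mul_isUnit_right h
      obtain ⟨t', ht', h'⟩ := ih h4 ((h3.dvd_mul_left).1 h2)
      exact ⟨t', Multiset.mem_cons_of_mem ht', h'⟩

theorem pf_HNX : T_HNX := by
  intro N p P a hP h0 hv w
  set q : O p := ((p : ℕ) : O p) ^ 2 with hq
  have hu : IsUnit (eval a (pderiv 0 P)) := (Pool.Agent.H12.ZD.isUnit_O p).2 hv
  have hqn : ¬ IsUnit q := by
    intro h
    rw [hq] at h
    have h1 : IsUnit ((p : ℕ) : O p) := (isUnit_pow_iff (by norm_num)).1 h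
    have h2 := h1.map (IsLocalRing.residue (O p))
    rw [map_natCast, Pool.Agent.H12.ZD.res_cast] at h2
    exact not_isUnit_zero h2
  set a' : Fin N → O p := fun i => a i.succ + q * w i with ha'
  have hb : (fun i => a i + q * (Fin.cons 0 w : Fin (N + 1) → O p) i) =
      (Fin.cons (a 0) a' : Fin (N + 1) → O p) := by
    funext i
    refine Fin.cases ?_ (fun j => ?_) i
    · rw [Fin.cons_zero, Fin.cons_zero, mul_zero, add_zero]
    · rw [Fin.cons_succ, Fin.cons_succ]
  obtain ⟨s, hs⟩ := splits_O p _ ((finSuccEquiv (O p) N P).map (eval a'))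
    (Polynomial.Monic.map _ hP) rfl
  have hev : ∀ y : O p, eval (Fin.cons y a' : Fin (N + 1) → O p) P =
      (s.map fun t => y - t).prod := by
    intro y
    rw [eval_eq_eval_mv_eval', hs, eval_multiset]
  have h1 : q ∣ (s.map fun t => a 0 - t).prod := by
    have := hnx_congr q a (Fin.cons 0 w) P
    rw [hb, h0, sub_zero, hev] at this
    exact this
  have h2 : IsUnit ((Polynomial.derivative
      (s.map fun t => Polynomial.X - Polynomial.C t).prod).eval (a 0)) := by
    rw [← hs, ← Pool.Agent.H12.ZD.eval_pderiv_zero]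
    have h3 := hnx_congr q a (Fin.cons 0 w) (pderiv 0 P)
    rw [hb] at h3
    by_contra hn
    have h4 : ¬ IsUnit (eval (Fin.cons (a 0) a' : Fin (N + 1) → O p) (pderiv 0 P) -
        eval a (pderiv 0 P)) := fun h => hqn (isUnit_of_dvd_unit h3 h)
    have h5 : IsUnit (eval (Fin.cons (a 0) a' : Fin (N + 1) → O p) (pderiv 0 P) +
        -(eval (Fin.cons (a 0) a' : Fin (N + 1) → O p) (pderiv 0 P) -
          eval a (pderiv 0 P))) := by
      have : eval (Fin.cons (a 0) a' : Fin (N + 1) → O p) (pderiv 0 P) +
        -(eval (Fin.cons (a 0) a' : Fin (N + 1) → O p) (pderiv 0 P) -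
          eval a (pderiv 0 P)) = eval a (pderiv 0 P) := by ring
      rw [this]
      exact hu
    rcases IsLocalRing.isUnit_or_isUnit_of_isUnit_add h5 with h | h
    · exact hn h
    · exact h4 ((IsUnit.neg_iff _).1 h)
  obtain ⟨t, ht, c, hc⟩ := hnx_root q (a 0) s h2 h1
  refine ⟨-c, ?_⟩
  have hfin : (fun i => a i + q * (Fin.cons (-c) w : Fin (N + 1) → O p) i) =
      (Fin.cons t a' : Fin (N + 1) → O p) := by
    funext i
    refine Fin.cases ?_ (fun j => ?_) i
    · rw [Fin.cons_zero, Fin.cons_zero]
      linear_combination hc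
    · rw [Fin.cons_succ, Fin.cons_succ]
  rw [hfin, hev]
  refine Multiset.prod_eq_zero ?_
  rw [Multiset.mem_map]
  exact ⟨t, ht, sub_self t⟩

end Pool.Agent.H58.HX
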