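import Pool.Agent.H18.HX.Targets

/-! WRO: Wronskians. -/

set_option autoImplicit false

open MvPolynomial
open Pool.Agent.H12.ZD (pmap v O Res DenseOrbit NoInv)
open Pool.Agent.H18.HIT Pool.Agent.H18.HX

namespace Pool.Agent.H58.HX

theorem pf_WRO : T_WRO := by
  intro K _ N δ ι _ _ G hG
  classical
  set w : List (Fin N) → ι → K := fun D b => D.foldr (fun i x => δ i x) (G b) with hw
  have hcons : ∀ i D b, w (i :: D) b = δ i (w D b) := fun i D b => rfl
  have hspan : Submodule.span K (Set.range w) = ⊤ := by
    by_contra hne
    obtain ⟨f, hf0, hf⟩ := Submodule.exists_le_ker_of_lt_top _ (lt_top_iff_ne_top.2 hne)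
    have hex : ∃ n : ℕ, ∃ lam : ι → K, lam ≠ 0 ∧ (∀ D, ∑ b, lam b * w D b = 0) ∧
        (Finset.univ.filter fun b => lam b ≠ 0).card = n := by
      refine ⟨_, fun b => f (Pi.single b 1), ?_, ?_, rfl⟩
      · intro h
        apply hf0
        refine LinearMap.pi_ext' fun b => LinearMap.ext_ring ?_
        have := congrFun h b
        simpa using this
      · intro D
        have h1 : f (w D) = 0 := hf (Submodule.subset_span ⟨D, rfl⟩)
        rw [LinearMap.pi_apply_eq_sum_univ f (w D)] at h1
        rw [← h1]
        refine Finset.sum_congr rfl fun b _ => ?_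
        rw [smul_eq_mul, mul_comm]
        congr 1
        show f (Pi.single b 1) = _
        congr 1
        funext j
        by_cases h : b = j
        · subst h; simp
        · rw [Pi.single_eq_of_ne (Ne.symm h), if_neg h]
    obtain ⟨lam, hl0, hl, hcard⟩ := Nat.find_spec hex
    obtain ⟨b₀, hb₀⟩ : ∃ b, lam b ≠ 0 := by
      by_contra h
      push Not at h
      exact hl0 (funext h)
    set lam' : ι → K := fun b => (lam b₀)⁻¹ * lam b with hlam'
    have h1 : lam' b₀ = 1 := by
      rw [hlam']
      exact inv_mul_cancel₀ hb₀
    have h2 : ∀ D, ∑ b, lam' b * w D b = 0 := by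
      intro D
      have : ∑ b, lam' b * w D b = (lam b₀)⁻¹ * ∑ b, lam b * w D b := by
        rw [Finset.mul_sum]
        refine Finset.sum_congr rfl fun b _ => ?_
        rw [hlam']
        ring
      rw [this, hl D, mul_zero]
    have h3 : ∀ i b, δ i (lam' b) = 0 := by
      intro i
      by_contra hcon
      push Not at hcon
      obtain ⟨b₁, hb₁⟩ := hcon
      have hmin : (Finset.univ.filter fun b => δ i (lam' b) ≠ 0).card < Nat.find hex := by
        rw [← hcard]
        refine Finset.card_lt_card ⟨?_, ?_⟩
        · intro b hb
          rw [Finset.mem_filter] at hb ⊢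
          refine ⟨Finset.mem_univ _, fun h0 => hb.2 ?_⟩
          have : lam' b = 0 := by
            rw [hlam']
            simp only [h0, mul_zero]
          rw [this, map_zero]
        · intro hsub
          have hmem : b₀ ∈ Finset.univ.filter fun b => lam b ≠ 0 := by
            rw [Finset.mem_filter]
            exact ⟨Finset.mem_univ _, hb₀⟩
          have := hsub hmem
          rw [Finset.mem_filter] at this
          apply this.2
          rw [h1]
          exact Derivation.map_one_eq_zero (δ i)
      refine Nat.find_min hex hmin ⟨fun b => δ i (lam' b), ?_, ?_, rfl⟩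
      · intro h0
        exact hb₁ (congrFun h0 b₁)
      · intro D
        have h4 : δ i (∑ b, lam' b * w D b) = 0 := by rw [h2 D, map_zero]
        rw [map_sum] at h4
        have h5 := h2 (i :: D)
        rw [← sub_eq_zero.2 (h4.trans h5.symm), ← Finset.sum_sub_distrib]
        refine Finset.sum_congr rfl fun b _ => ?_
        rw [Derivation.leibniz, hcons, smul_eq_mul, smul_eq_mul]
        ring
    have h6 := hG lam' h3 (h2 [])
    rw [h6] at h1
    exact zero_ne_one h1
  obtain ⟨t, ht, hts, hli⟩ := exists_linearIndependent K (Set.range w)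
  rw [hspan] at hts
  let B : Module.Basis t K (ι → K) := Module.Basis.mk hli (by
    rw [Subtype.range_coe_subtype, Set.ofPred_mem_eq, hts])
  have hfin : Finite t := Module.Finite.finite_basis B
  have : Fintype t := Fintype.ofFinite t
  have hc : Fintype.card ι = Fintype.card t := by
    rw [← Module.finrank_eq_card_basis B, Module.finrank_fintype_fun_eq_card]
  let e : ι ≃ t := Fintype.equivOfCardEq hc
  have hch : ∀ x : t, ∃ D, w D = x := fun x => ht x.2
  choose D hD using hch
  refine ⟨fun a => D (e a), ?_⟩
  have hrow : LinearIndependent K (Matrix.of fun a b =>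
      (D (e a)).foldr (fun i x => δ i x) (G b)).row := by
    have h7 : (Matrix.of fun a b => (D (e a)).foldr (fun i x => δ i x) (G b)).row =
        fun a => ((e a : t) : ι → K) := by
      funext a
      rw [← hD (e a)]
      rfl
    rw [h7]
    exact hli.comp e e.injective
  rw [Matrix.linearIndependent_rows_iff_isUnit, Matrix.isUnit_iff_isUnit_det] at hrow
  exact hrow.ne_zero

end Pool.Agent.H58.HX
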